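import Mathlib

set_option autoImplicit false

namespace Pool.Agent.Results.MP_6598fd_al.Singer

open Module Matrix

theorem avoid {F K : Type} [Field F] [Field K] [Algebra F K] [Finite F] [Finite K]
    (U W : Submodule F K) (h : finrank F U + finrank F W = finrank F K) :
    ∃ x : K, x ≠ 0 ∧ ∀ u ∈ U, x * u ∈ W → u = 0 := by
  classical
  by_contra hcon
  push Not at hcon
  have := Fintype.ofFinite K
  let SU : Finset K := (Finset.univ.filter (· ∈ U)).erase 0
  let SW : Finset K := (Finset.univ.filter (· ∈ W)).erase 0
  have hsub : (Finset.univ : Finset K).erase 0 ⊆ (SU ×ˢ SW).image (fun p => p.2 / p.1) := by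
    intro x hx
    have hx0 := Finset.ne_of_mem_erase hx
    obtain ⟨u, hu, hw, hu0⟩ := hcon x hx0
    refine Finset.mem_image.2 ⟨(u, x * u), ?_, by field_simp⟩
    simp [SU, SW, hu, hw, hu0, hx0]
  have h1 := (Finset.card_le_card hsub).trans Finset.card_image_le
  have c : ∀ V : Submodule F K, ((Finset.univ.filter (· ∈ V)).erase (0 : K)).card + 1 =
      Nat.card F ^ finrank F V := by
    intro V
    rw [Finset.card_erase_add_one (by simp), ← Module.natCard_eq_pow_finrank (K := F) (V := V),
      Nat.card_eq_fintype_card, Fintype.card_subtype]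
  have cU := c U
  have cW := c W
  have cK : ((Finset.univ : Finset K).erase 0).card + 1 = Nat.card F ^ finrank F K := by
    rw [Finset.card_erase_add_one (by simp), ← Module.natCard_eq_pow_finrank (K := F) (V := K),
      Nat.card_eq_fintype_card, Finset.card_univ]
  have hpos : 0 < ((Finset.univ : Finset K).erase 0).card :=
    Finset.card_pos.2 ⟨1, by simp⟩
  rw [← h, pow_add, ← cU, ← cW] at cK
  rw [Finset.card_product] at h1
  simp only [SU, SW] at h1
  generalize ((Finset.univ.filter (· ∈ U)).erase (0 : K)).card = s at *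
  generalize ((Finset.univ.filter (· ∈ W)).erase (0 : K)).card = t at *
  have : s = 0 := by nlinarith
  subst this
  omega

theorem result (F : Type) [Field F] [Fintype F] (n : ℕ) (hn : 2 ≤ n) :
    ∃ G : Subgroup (GL (Fin n) F),
      (∀ a : Matrix (Fin n) (Fin n) F, a.det = 0 →
        ∃ g ∈ G, (a * (g : Matrix (Fin n) (Fin n) F) * a).rank = a.rank) ∧
      ¬ ∀ g : GL (Fin n) F, (g : Matrix (Fin n) (Fin n) F).det = 1 → g ∈ G := by
  classical
  obtain ⟨p, hp⟩ := CharP.exists F
  have : Fact p.Prime := ⟨CharP.char_is_prime F p⟩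
  have : NeZero n := ⟨by omega⟩
  let K := FiniteField.Extension F p n
  have hK : finrank F K = n := FiniteField.finrank_extension F p n
  let b : Basis (Fin n) F K := Module.finBasisOfFinrankEq F K hK
  let φ : Kˣ →* GL (Fin n) F := Units.map (Algebra.leftMulMatrix b).toRingHom.toMonoidHom
  refine ⟨φ.range, ?_, ?_⟩
  · intro a _
    let e := b.equivFun
    obtain ⟨x, hx0, hx⟩ := avoid ((LinearMap.range a.mulVecLin).comap e.toLinearMap)
      ((LinearMap.ker a.mulVecLin).comap e.toLinearMap) (by
        rw [Submodule.comap_equiv_eq_map_symm, Submodule.comap_equiv_eq_map_symm,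
          LinearEquiv.finrank_map_eq, LinearEquiv.finrank_map_eq,
          LinearMap.finrank_range_add_finrank_ker, hK]; simp)
    refine ⟨φ (Units.mk0 x hx0), ⟨_, rfl⟩, ?_⟩
    have hg : ((φ (Units.mk0 x hx0) : GL (Fin n) F) : Matrix (Fin n) (Fin n) F) =
        Algebra.leftMulMatrix b x := rfl
    rw [hg, Matrix.rank, Matrix.rank, Matrix.mulVecLin_mul, LinearMap.range_comp,
      ← LinearMap.range_domRestrict]
    apply LinearMap.finrank_range_of_inj
    rw [← LinearMap.ker_eq_bot, LinearMap.ker_eq_bot']
    rintro ⟨v, hv⟩ h0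
    obtain ⟨u, rfl⟩ := e.surjective v
    have h1 : a *ᵥ (e (x * u)) = 0 := by
      have h2 : Algebra.leftMulMatrix b x *ᵥ (e u) = e (x * u) :=
        Algebra.leftMulMatrix_mulVec_repr b x u
      rw [← h2, Matrix.mulVec_mulVec]; exact h0
    have := hx u hv h1
    subst this
    simp
  · intro h
    let i : Fin n := ⟨0, by omega⟩
    let j : Fin n := ⟨1, by omega⟩
    have hij : i ≠ j := by simp [i, j]
    let s := Matrix.GeneralLinearGroup.mkOfDetNeZero (Matrix.transvection i j (1 : F))
      (by rw [Matrix.det_transvection_of_ne i j hij]; exact one_ne_zero)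
    let t := Matrix.GeneralLinearGroup.mkOfDetNeZero (Matrix.transvection j i (1 : F))
      (by rw [Matrix.det_transvection_of_ne j i hij.symm]; exact one_ne_zero)
    obtain ⟨x, hx⟩ := h s (Matrix.det_transvection_of_ne i j hij 1)
    obtain ⟨y, hy⟩ := h t (Matrix.det_transvection_of_ne j i hij.symm 1)
    have hc : s * t = t * s := by rw [← hx, ← hy, ← map_mul, ← map_mul, mul_comm]
    have h2 : Matrix.transvection i j (1 : F) * Matrix.transvection j i (1 : F) =
        Matrix.transvection j i (1 : F) * Matrix.transvection i j (1 : F) :=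
      congrArg Units.val hc
    have h3 := congrFun (congrFun h2 i) i
    rw [Matrix.transvection_mul_apply_same, Matrix.transvection_mul_apply_of_ne j i i i hij] at h3
    simp [Matrix.transvection, hij, hij.symm] at h3

end Pool.Agent.Results.MP_6598fd_al.Singer
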